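import Pool.Agent.H61.BRX.Stmts

set_option autoImplicit false

namespace Pool.STN

theorem LOW_thm (h1 : DIOStmt) : LOWStmt := by
  refine ⟨1331, ?_⟩
  intro a b ha hb
  obtain ⟨L, hL⟩ : ∃ L : ℝ, L = |((b : ℝ) - a) * Real.log (4 / 3) + b * Real.log (9 / 8)| := ⟨_, rfl⟩
  obtain ⟨s, hs⟩ : ∃ s : ℕ, s = a + b := ⟨_, rfl⟩
  obtain ⟨l, hl⟩ : ∃ l : ℕ, l = Nat.log 2 s := ⟨_, rfl⟩
  have hs2 : 2 ≤ s := by omega
  have hl1 : 2 ^ l ≤ s := by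
    rw [hl]
    exact Nat.pow_log_le_self 2 (by omega)
  have hl2 : s < 2 ^ (l + 1) := by
    rw [hl]
    exact Nat.lt_pow_succ_log_self (by norm_num) s
  have hl1r : (2 : ℝ) ^ l ≤ (s : ℝ) := by exact_mod_cast hl1
  have hl2r : (s : ℝ) ≤ 2 * (2 : ℝ) ^ l := by
    have : (s : ℝ) ≤ (2 : ℝ) ^ (l + 1) := by exact_mod_cast hl2.le
    rw [pow_succ] at this
    linarith
  have hs2r : (2 : ℝ) ≤ (s : ℝ) := by exact_mod_cast hs2
  have hL0 : 0 ≤ L := by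
    rw [hL]
    exact abs_nonneg _
  have key := h1 ((b : ℤ) - (a : ℤ)) (b : ℤ) (5 * l + 55) (Or.inr (by omega)) (by omega)
  have e1 : |(((b : ℤ) - (a : ℤ) : ℤ) : ℝ) * Real.log (4 / 3) + ((b : ℤ) : ℝ) * Real.log (9 / 8)| = L := by
    rw [hL]
    push_cast
    rfl
  rw [e1] at key
  have hu : |(((b : ℤ) - (a : ℤ) : ℤ) : ℝ)| ≤ (s : ℝ) := by
    rw [hs, abs_le]
    push_cast
    have h1 : (0 : ℝ) ≤ (a : ℝ) := Nat.cast_nonneg a
    have h2 : (0 : ℝ) ≤ (b : ℝ) := Nat.cast_nonneg b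
    constructor <;> linarith
  have hv : |((b : ℤ) : ℝ)| ≤ (s : ℝ) := by
    rw [hs, abs_le]
    push_cast
    have h1 : (0 : ℝ) ≤ (a : ℝ) := Nat.cast_nonneg a
    have h2 : (0 : ℝ) ≤ (b : ℝ) := Nat.cast_nonneg b
    constructor <;> linarith
  have h5 : ((343 : ℝ) / 400) ^ 5 ≤ 1 / 2 := by norm_num
  have hp : ((343 : ℝ) / 400) ^ (5 * l + 55) ≤ (1 / 2) ^ (l + 11) := by
    have : 5 * l + 55 = 5 * (l + 11) := by ring
    rw [this, pow_mul]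
    exact pow_le_pow_left₀ (by positivity) h5 _
  have hp2 : ((1 : ℝ) / 2) ^ (l + 11) * (2 : ℝ) ^ l = 1 / 2048 := by
    rw [pow_add, mul_assoc, mul_comm (((1 : ℝ) / 2) ^ 11), ← mul_assoc, ← mul_pow]
    norm_num
  have hsec : 14 * (18 * |(((b : ℤ) - (a : ℤ) : ℤ) : ℝ)| + 9 * |((b : ℤ) : ℝ)|) *
      (343 / 400) ^ (5 * l + 55) ≤ 1 / 2 := by
    have hx : 14 * (18 * |(((b : ℤ) - (a : ℤ) : ℤ) : ℝ)| + 9 * |((b : ℤ) : ℝ)|) ≤ 756 * (2 : ℝ) ^ l := by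
      linarith
    calc 14 * (18 * |(((b : ℤ) - (a : ℤ) : ℤ) : ℝ)| + 9 * |((b : ℤ) : ℝ)|) *
          (343 / 400) ^ (5 * l + 55) ≤ (756 * (2 : ℝ) ^ l) * (1 / 2) ^ (l + 11) := by
            apply mul_le_mul hx hp (by positivity) (by positivity)
      _ = 756 * (((1 : ℝ) / 2) ^ (l + 11) * (2 : ℝ) ^ l) := by ring
      _ ≤ 1 / 2 := by
            rw [hp2]
            norm_num
  have hfirst : 1 ≤ 1202 * 2965950 ^ (5 * l + 55) * L := by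
    linarith
  have hbase : (2965950 : ℝ) ^ (5 * l + 55) ≤ ((2 : ℝ) ^ 22) ^ (5 * l + 55) :=
    pow_le_pow_left₀ (by norm_num) (by norm_num) _
  have hexp : ((2 : ℝ) ^ 22) ^ (5 * l + 55) = (2 : ℝ) ^ 1210 * ((2 : ℝ) ^ l) ^ 110 := by
    rw [← pow_mul, ← pow_mul, ← pow_add]
    congr 1
    ring
  have h11 : (1202 : ℝ) ≤ (2 : ℝ) ^ 11 := by norm_num
  have hmain : 1202 * (2965950 : ℝ) ^ (5 * l + 55) ≤ (s : ℝ) ^ 1331 := by
    calc 1202 * (2965950 : ℝ) ^ (5 * l + 55)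
        ≤ (2 : ℝ) ^ 11 * ((2 : ℝ) ^ 1210 * ((2 : ℝ) ^ l) ^ 110) := by
          rw [← hexp]
          exact mul_le_mul h11 hbase (by positivity) (by positivity)
      _ = (2 : ℝ) ^ 1221 * ((2 : ℝ) ^ l) ^ 110 := by
          rw [← mul_assoc, ← pow_add]
      _ ≤ (s : ℝ) ^ 1221 * (s : ℝ) ^ 110 := by
          apply mul_le_mul
          · exact pow_le_pow_left₀ (by norm_num) hs2r _
          · exact pow_le_pow_left₀ (by positivity) hl1r _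
          · positivity
          · positivity
      _ = (s : ℝ) ^ 1331 := by rw [← pow_add]
  rw [← hL, ← hs]
  calc (1 : ℝ) ≤ 1202 * 2965950 ^ (5 * l + 55) * L := hfirst
    _ ≤ (s : ℝ) ^ 1331 * L := mul_le_mul_of_nonneg_right hmain hL0

end Pool.STN
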